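import Pool.Agent.MP_c1891a_nt.G97.AnomA

/-! A very small value is near a coset or on an anomalous coset. -/

namespace Pool.Agent.MP_c1891a_nt.G43

open Finset Module Polynomial H43

theorem anomN_sq {T : ℝ} (hT : 1 ≤ T) : 8 * T ^ 2 < Real.exp (5 * T) := by
  have h1 : T + 1 ≤ Real.exp T := Real.add_one_le_exp T
  have h2 : T ^ 2 < Real.exp T ^ 2 := pow_lt_pow_left₀ (by linarith) (by linarith) two_ne_zero
  have h3 : (2 : ℝ) ^ 3 ≤ Real.exp T ^ 3 := pow_le_pow_left₀ (by norm_num) (by linarith) 3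
  calc 8 * T ^ 2 < 2 ^ 3 * Real.exp T ^ 2 := by linarith
    _ ≤ Real.exp T ^ 3 * Real.exp T ^ 2 := mul_le_mul_of_nonneg_right h3 (by positivity)
    _ = Real.exp (5 * T) := by rw [← pow_add, ← Real.exp_nat_mul]; norm_num

theorem anomN_pow {H : ℝ} (hH : 0 ≤ H) (W N g : ℕ) :
    (2 ^ W * H ^ N) ^ g ≤ Real.exp (g * W + H * (g * N)) := by
  have h1 : (2 : ℝ) ≤ Real.exp 1 := by linarith [Real.add_one_le_exp 1]
  have h2 : H ≤ Real.exp H := by linarith [Real.add_one_le_exp H]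
  refine (pow_le_pow_left₀ (by positivity) (mul_le_mul (pow_le_pow_left₀ (by norm_num) h1 W)
    (pow_le_pow_left₀ hH h2 N) (by positivity) (by positivity)) g).trans_eq ?_
  rw [← Real.exp_nat_mul, ← Real.exp_nat_mul, ← Real.exp_add, ← Real.exp_nat_mul]
  congr 1
  ring

theorem anomN_one {d : ℂ} {ε B : ℝ} (hd : ‖d - 1‖ ≤ ε) (hε : ε ≤ 1 / 2) (hB : 4 * ε * B < 1)
    {D : ℤ} (hD : D ≠ 0) (hDB : |(D : ℝ)| ≤ B) (h : d ^ D = 1) : d = 1 := by
  have h0 : 0 ≤ ε * B := mul_nonneg ((norm_nonneg _).trans hd) ((abs_nonneg _).trans hDB)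
  refine twoB_one (n := D.natAbs) (Int.natAbs_pos.2 hD) ?_ fun i hi => ?_
  · rcases Int.natAbs_eq D with h1 | h1
    · rw [← zpow_natCast, ← h1, h]
    · rw [h1, zpow_neg, zpow_natCast, inv_eq_one] at h
      exact h
  · have h1 : (i : ℝ) ≤ |(D : ℝ)| := by
      have : (i : ℤ) ≤ |D| := by rw [← Int.natCast_natAbs]; exact_mod_cast hi.le
      exact_mod_cast this
    have h2 := twoB_zpow hd hε i (B := B) (by simpa using h1.trans hDB) (by linarith)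
    rw [zpow_natCast] at h2
    linarith

variable {Λ : Type} [AddCommGroup Λ]

theorem anomN_end (h8 : SFF) (S : Sys Λ) {z : S.ι → ℤ} (hz : ∀ i ∈ S.I, S.c i = z i)
    {χ y : AddChar Λ ℂ} {k v w : Λ →ₗ[ℤ] ℤ} {ζ p₀ q₀ p q : ℂ} {g : ℕ} (hg : 0 < g)
    (hζ : ζ ^ g = 1) (hχ : ∀ l, χ l = ζ ^ k l * p₀ ^ v l * q₀ ^ w l)
    (hy : ∀ l, y l = ζ ^ k l * p ^ v l * q ^ w l) (hp : p ≠ 0) (hq : q ≠ 0)
    (hdet : ∃ l l', v l * w l' ≠ v l' * w l) {P : FF} (hP : P ≠ 0)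
    (h0 : ∀ j, ∑ i ∈ @filter _ (fun i => S.κ i = j) (fun _ => Classical.propDecidable _) S.I,
      algebraMap ℂ FF ((z i : ℂ) * ζ ^ k (S.m i)) * P ^ v (S.m i) * tt ^ w (S.m i) = 0)
    (hs : ∀ Φ : ℂ[X][X], (Φ.map (aeval tt).toRingHom).eval P = 0 → Φ.evalEval q p = 0) :
    (∃ u : Λ →ₗ[ℤ] ℤ, u ≠ 0 ∧ (S.ref u).Zero y) ∨
      ∃ D : AnD S, ∀ l, D.v l = 0 → D.w l = 0 → χ l = D.η l := by
  classical
  have hζ0 : ζ ≠ 0 := by
    rintro rfl
    rw [zero_pow hg.ne'] at hζ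
    exact zero_ne_one hζ
  by_cases hc : ∃ a b : ℤ, (a ≠ 0 ∨ b ≠ 0) ∧ P ^ a * tt ^ b ∈ Set.range (algebraMap ℂ FF)
  · obtain ⟨a, b, hab, hr⟩ := hc
    refine Or.inl ⟨a • w - b • v, fun hu => ?_, fun j => ?_⟩
    · obtain ⟨l, l', hl⟩ := hdet
      have e1 : a * w l - b * v l = 0 := LinearMap.congr_fun hu l
      have e2 : a * w l' - b * v l' = 0 := LinearMap.congr_fun hu l'
      rcases hab with h | h
      · exact hl (mul_left_cancel₀ h (by linear_combination v l * e2 - v l' * e1))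
      · exact hl (mul_left_cancel₀ h (by linear_combination w l * e2 - w l' * e1))
    · rw [← anomN_coset h8 _ _ (fun i => v (S.m i)) (fun i => w (S.m i)) hP hp hq hs (h0 j.1)
        hr j.2]
      refine sum_congr ?_ fun i hi => ?_
      · ext i
        simp only [mem_filter, Prod.ext_iff, and_assoc]
        rfl
      · rw [← hz i (mem_filter.1 (mem_filter.1 hi).1).1, mul_assoc, mul_assoc, ← mul_assoc (ζ ^ _),
          ← hy]
        rfl
  · have hζ1 : algebraMap ℂ FF ζ ≠ 0 := (_root_.map_ne_zero _).2 hζ0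
    refine Or.inr ⟨⟨anomCh ζ hζ0 k, v, w, P,
      anomCh _ hζ1 k * anomCh P hP v * anomCh tt (anomN_tt h8) w, fin_of_pow hg ?_, hP,
      fun a b hab hr => hc ⟨a, b, hab, hr⟩, hdet, fun l => ?_, fun j => ?_⟩, fun l h1 h2 => ?_⟩
    · ext l
      rw [AddChar.pow_apply, anomCh_apply, ← zpow_natCast, ← zpow_mul, mul_comm, zpow_mul,
        zpow_natCast, hζ, one_zpow, AddChar.one_apply]
    · simp only [AddChar.mul_apply, anomCh_apply, map_zpow₀]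
    · rw [← h0 j]
      refine sum_congr rfl fun i hi => ?_
      simp only [AddChar.mul_apply, anomCh_apply, map_zpow₀, map_mul, mul_assoc,
        hz i (mem_filter.1 hi).1]
    · rw [hχ, (h1 : v l = 0), (h2 : w l = 0), zpow_zero, zpow_zero, mul_one, mul_one]
      rfl

theorem anomN_core (h2 : SRep2N) (h3 : SNearN) (h4 : STwoN) (h6 : SSylN) (h8 : SFF) (S : Sys Λ)
    {z : S.ι → ℤ} (hz : ∀ i ∈ S.I, S.c i = z i) {n : ℕ} (b : Basis (Fin n) ℤ Λ) :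
    ∃ K : ℕ, ∀ (χ : AddChar Λ ℂ) (ξ : ℂ) (e : Λ →ₗ[ℤ] ℤ) (M : ℕ) (T X Y : ℝ) (κ₁ κ₂ : ℤ)
      (r₁ r₂ : Fin n → ℤ), 0 < M → IsPrimitiveRoot ξ M → (∀ l, χ l = ξ ^ e l) →
      Gen M (fun i => e (b i)) → (∀ i, (M : ℤ) ∣ r₁ i - κ₁ * e (b i)) →
      (∀ i, (M : ℤ) ∣ r₂ i - κ₂ * e (b i)) → (∃ i j, r₁ i * r₂ j ≠ r₁ j * r₂ i) →
      (∀ i, |(r₁ i : ℝ)| ≤ T ∧ |(r₂ i : ℝ)| ≤ T) → 1 ≤ T → T ≤ M → K * T ≤ X → K * X ≤ Y →
      S.ρ χ ≠ 0 → S.ρ χ ≤ Real.exp (-Y) →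
      (∃ u : Λ →ₗ[ℤ] ℤ, u ≠ 0 ∧ (S.ref u).ρ χ ≤ Real.exp (-X)) ∨
        ∃ D : AnD S, ∀ l, D.v l = 0 → D.w l = 0 → χ l = D.η l := by
  classical
  obtain ⟨R, hR⟩ := anomN_lin b S.I S.m
  have hR' : ∀ i ∈ S.I, ∀ (x : Fin n → ℤ) (B : ℝ), (∀ k, |(x k : ℝ)| ≤ B) → 0 ≤ B →
      |(b.constr ℤ x (S.m i) : ℝ)| ≤ R * B := fun i hi x B h hB => by
    simpa using hR i hi x x 0 B (by simpa using h) hB
  obtain ⟨K₀, hK₀⟩ := anomN_root h3 h4 S hz
  obtain ⟨H, hH1, hH⟩ : ∃ H : ℕ, (1 : ℝ) ≤ H ∧ ∑ i ∈ S.I, |(z i : ℝ)| ≤ H :=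
    ⟨∑ i ∈ S.I, (z i).natAbs + 1, by exact_mod_cast Nat.le_add_left _ _, by
      push_cast
      simp only [Nat.cast_natAbs, Int.cast_abs]
      linarith⟩
  refine ⟨K₀ * (R + 2) + (20 * (R + 1) * R + 6 + 5 * (R + 1) * H), fun χ ξ e M T X Y κ₁ κ₂ r₁ r₂
    hM hξ hχ he d1 d2 hmin hT T1 TM c1 c2 h0 hρ => ?_⟩
  have R0 : (0 : ℝ) ≤ R := Nat.cast_nonneg R
  have K0 : (0 : ℝ) ≤ K₀ := Nat.cast_nonneg K₀
  have T0 : 0 ≤ T := by linarith
  push_cast at c1 c2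
  have c3 : K₀ * ((R + 1) * T) ≤ X ∧ (20 * (R + 1) * R + 6 + 5 * (R + 1) * H) * T ≤ X := by
    have : 0 ≤ K₀ * T := by positivity
    have : 0 ≤ K₀ * R * T := by positivity
    have : 0 ≤ (20 * (R + 1) * R + 6 + 5 * (R + 1) * H) * T := by positivity
    constructor <;> linarith
  have c4 : 6 * T ≤ X ∧ 4 * (H * (R * T)) ≤ X := by
    have : 0 ≤ (R + 1) * R * T := by positivity
    have : 0 ≤ H * T := by positivity
    have : 0 ≤ H * R * T := by positivity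
    constructor <;> linarith [c3.2]
  have X0 : 0 ≤ X := by linarith [c4.1]
  have c5 : K₀ * (2 * X) ≤ Y := by
    have : 0 ≤ K₀ * R * X := by positivity
    have : 0 ≤ (20 * (R + 1) * R + 6 + 5 * (R + 1) * H) * X := by positivity
    linarith
  have hξ0 : ξ ≠ 0 := hξ.ne_zero hM.ne'
  have hξn : ‖ξ‖ = 1 := hξ.norm'_eq_one hM.ne'
  obtain ⟨v, w, k, g, a₁, a₂, b', β₁, β₂, hg, hgM, hprim, hr, hek, ⟨a', ha'⟩, hdv⟩ :=
    h2 n M _ r₁ r₂ κ₁ κ₂ hM d1 d2 hmin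
  have hfac : ∀ i j, r₁ i * r₂ j - r₁ j * r₂ i = g * (g * a₂ * b') * (w i * v j - w j * v i) :=
    fun i j => by rw [(hr i).1, (hr i).2, (hr j).1, (hr j).2]; ring
  obtain ⟨i₀, j₀, hij⟩ := hmin
  have hne := sub_ne_zero.2 hij
  rw [hfac] at hne
  have hm0 := right_ne_zero_of_mul hne
  have hgab := right_ne_zero_of_mul (left_ne_zero_of_mul hne)
  have hb0 : b' ≠ 0 := right_ne_zero_of_mul hgab
  have ha0 : a₂ ≠ 0 := right_ne_zero_of_mul (left_ne_zero_of_mul hgab)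
  have g1 : (1 : ℝ) ≤ g := by exact_mod_cast hg
  have hbd : ∀ i j, (g : ℝ) * (g * |((a₂ * b' : ℤ) : ℝ)|) * |((w i * v j - w j * v i : ℤ) : ℝ)| ≤
      2 * T ^ 2 := fun i j => by
    have := twoB_abs (hT i).1 (hT j).2 (c := -r₁ j) (by simpa using (hT j).1) (hT i).2
    rw [neg_mul, ← sub_eq_add_neg, hfac, mul_assoc (g : ℤ) a₂, Int.cast_mul, Int.cast_mul,
      Int.cast_mul (g : ℤ), abs_mul, abs_mul, abs_mul, Int.cast_natCast, Nat.abs_cast] at this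
    exact this
  have hMle : (M : ℝ) ≤ g * |((a₂ * b' : ℤ) : ℝ)| := by
    have := Int.le_of_dvd (abs_pos.2 hgab) ((dvd_abs _ _).2 hdv)
    rw [mul_assoc, abs_mul, Nat.abs_cast] at this
    exact_mod_cast this
  have M0 : (0 : ℝ) < M := by exact_mod_cast hM
  have hmin' : ∀ i j, (g : ℝ) * |((w i * v j - w j * v i : ℤ) : ℝ)| ≤ 2 * T := fun i j => by
    refine le_of_mul_le_mul_right ?_ M0
    have h1 := mul_le_mul_of_nonneg_left hMle
      (by positivity : 0 ≤ (g : ℝ) * |((w i * v j - w j * v i : ℤ) : ℝ)|)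
    have h2 := mul_le_mul_of_nonneg_left TM T0
    linarith only [hbd i j, h1, h2]
  have hab : |((a₂ * b' : ℤ) : ℝ)| ≤ 2 * T ^ 2 := by
    have h1 : (1 : ℝ) ≤ |((w i₀ * v j₀ - w j₀ * v i₀ : ℤ) : ℝ)| := by
      exact_mod_cast Int.one_le_abs hm0
    refine le_trans ?_ (hbd i₀ j₀)
    exact ((le_mul_of_one_le_left (abs_nonneg _) g1).trans
      (le_mul_of_one_le_left (by positivity) g1)).trans (le_mul_of_one_le_right (by positivity) h1)
  have hg3 : 0 < Int.gcd a₁ a₂ := Int.gcd_pos_iff.2 (Or.inr ha0)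
  obtain ⟨s₁, s₂, hcop, f1, f2⟩ := Int.exists_gcd_one hg3
  generalize Int.gcd a₁ a₂ = g₃ at hg3 f1 f2
  have hr1 : ∀ i, r₁ i = ((g : ℤ) * g₃) * (s₁ • v + s₂ • w) i := fun i => by
    rw [(hr i).1, f1, f2]
    simp only [Pi.add_apply, Pi.smul_apply, smul_eq_mul]
    ring
  obtain ⟨g', ω, X₀, k', hχ', hg', hω, hX, b1, b2⟩ := anomN_rep b hM hξ hχ he
    (h := (g : ℤ) * g₃) (κ := κ₁) (v := s₁ • v + s₂ • w) (by positivity) (fun m hm => by
      obtain ⟨u1, u2⟩ := hprim m s₁ s₂ hm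
      have := Int.dvd_coe_gcd u1 u2
      rw [hcop] at this
      exact_mod_cast this) (fun i => hr1 i ▸ d1 i) (T := T) (fun i => hr1 i ▸ (hT i).1)
  have g1' : (1 : ℝ) ≤ g' := by exact_mod_cast hg'
  obtain ⟨d, hd, hd1, hdn, hzero⟩ := hK₀ χ k' _ g' ω X₀ ((R + 1) * T) (2 * X) Y hχ' hg' hω
    (Complex.norm_eq_one_of_pow_eq_one hX hM.ne')
    (b1.trans (le_mul_of_one_le_left T0 (le_add_of_nonneg_left R0))) (fun i hi => by
      have := hR' i hi _ _ b2 (by positivity)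
      rw [← mul_div_assoc, le_div_iff₀' (by positivity)] at this
      rw [Int.cast_abs]
      linarith only [this, b1]) (by linarith only [c3.1, X0]) c5 h0 hρ
  set ε := Real.exp (-(2 * X)) with hε
  have ε0 : 0 < ε := Real.exp_pos _
  have hsq := anomN_sq T1
  have e1 : 8 * T ^ 2 * ε < 1 := by
    refine (mul_lt_mul_of_pos_right hsq ε0).trans_le ?_
    rw [hε, ← Real.exp_add, Real.exp_le_one_iff]
    linarith only [c4.1, T0]
  have e0 : ε ≤ T ^ 2 * ε := le_mul_of_one_le_left ε0.le (one_le_pow₀ T1)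
  have e2 : ε ≤ 1 / 2 := by linarith only [e0, e1, ε0]
  have e3 : 4 * (H * (R * T)) * ε ≤ Real.exp (-X) := by
    refine (mul_le_mul_of_nonneg_right (c4.2.trans (by linarith only [Real.add_one_le_exp X] :
      X ≤ Real.exp X)) ε0.le).trans_eq ?_
    rw [hε, ← Real.exp_add]
    congr 1
    ring
  have hζ := (anom_root hM hξ hgM).pow_eq_one
  set ζ := ξ ^ (M / g) with hζd
  have hχ2 : ∀ l, χ l = ζ ^ b.constr ℤ k l * (ξ ^ β₁) ^ b.constr ℤ v l *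
      (ξ ^ β₂) ^ b.constr ℤ w l := fun l => by
    have : e = β₁ • b.constr ℤ v + β₂ • b.constr ℤ w + ((M / g : ℕ) : ℤ) • b.constr ℤ k :=
      b.ext fun i => by simpa using hek i
    rw [hχ, this]
    simp only [LinearMap.add_apply, LinearMap.smul_apply, smul_eq_mul]
    rw [zpow_add₀ hξ0, zpow_add₀ hξ0, zpow_mul, zpow_mul, zpow_mul, zpow_natCast]
    ring
  have hy : ∀ l, (χ * anomCh d hd (b.constr ℤ (s₁ • v + s₂ • w))) l = ζ ^ b.constr ℤ k l *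
      (ξ ^ β₁ * d ^ s₁) ^ b.constr ℤ v l * (ξ ^ β₂ * d ^ s₂) ^ b.constr ℤ w l := fun l => by
    rw [AddChar.mul_apply, anomCh_apply, hχ2, map_add, map_smul, map_smul]
    simp only [LinearMap.add_apply, LinearMap.smul_apply, smul_eq_mul]
    rw [zpow_add₀ hd, zpow_mul, zpow_mul, mul_zpow, mul_zpow]
    ring
  have hp : ξ ^ β₁ * d ^ s₁ ≠ 0 := mul_ne_zero (zpow_ne_zero _ hξ0) (zpow_ne_zero _ hd)
  have hq : ξ ^ β₂ * d ^ s₂ ≠ 0 := mul_ne_zero (zpow_ne_zero _ hξ0) (zpow_ne_zero _ hd)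
  obtain ⟨a, ha⟩ : ∃ a : ℤ, (ξ ^ β₂) ^ b'.natAbs = ζ ^ a := by
    refine ⟨b'.sign * a', ?_⟩
    rw [hζd, ← zpow_natCast, ← zpow_natCast, ← zpow_mul, ← zpow_mul, mul_left_comm, ← ha',
      ← mul_assoc, Int.sign_mul_self_eq_natAbs, mul_comm]
  have hqm : (ξ ^ β₂ * d ^ s₂) ^ b'.natAbs - ζ ^ a = ζ ^ a * (d ^ (s₂ * b'.natAbs) - 1) := by
    rw [mul_pow, ha, zpow_mul, zpow_natCast]
    ring
  have hζn : ‖ζ ^ a‖ = 1 := by rw [norm_zpow, hζd, norm_pow, hξn, one_pow, one_zpow]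
  have hs0 : s₂ * b'.natAbs ≠ 0 :=
    mul_ne_zero (left_ne_zero_of_mul (f2 ▸ ha0)) (by exact_mod_cast Int.natAbs_ne_zero.2 hb0)
  have hsb : |((s₂ * b'.natAbs : ℤ) : ℝ)| ≤ 2 * T ^ 2 := by
    refine le_trans ?_ hab
    have h3 : (1 : ℝ) ≤ g₃ := by exact_mod_cast hg3
    rw [f2]
    push_cast
    rw [abs_mul, abs_abs, abs_mul, abs_mul, Nat.abs_cast]
    exact mul_le_mul_of_nonneg_right (le_mul_of_one_le_right (abs_nonneg _) h3) (abs_nonneg _)
  obtain ⟨i₁, -, hi₁⟩ := exists_max_image univ (fun i => (v i).natAbs) ⟨i₀, mem_univ _⟩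
  have hv0 : v i₁ ≠ 0 := fun h => hm0 (by
    have : ∀ i, v i = 0 := fun i => by simpa [h] using hi₁ i (mem_univ i)
    rw [this, this, mul_zero, mul_zero, sub_zero])
  set V := (v i₁).natAbs with hV
  have hVR : (V : ℝ) = |(v i₁ : ℝ)| := by rw [hV, Nat.cast_natAbs, Int.cast_abs]
  have V1 : (1 : ℝ) ≤ V := by exact_mod_cast Int.natAbs_pos.2 hv0
  have hgV : (g : ℝ) * b'.natAbs * V ≤ T := by
    have := (hT i₁).2
    rw [(hr i₁).2] at this
    push_cast at this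
    rw [abs_mul, abs_mul, Nat.abs_cast] at this
    rwa [hVR, Nat.cast_natAbs, Int.cast_abs]
  have m1 : (1 : ℝ) ≤ b'.natAbs := by exact_mod_cast Int.natAbs_pos.2 hb0
  have hgT : (g : ℝ) ≤ T :=
    ((le_mul_of_one_le_right (by positivity) m1).trans
      (le_mul_of_one_le_right (by positivity) V1)).trans hgV
  obtain ⟨j, -, -, -, hj⟩ := anomN_ne S h0
  have hcs : ∀ (x : AddChar Λ ℂ) (p q : ℂ), (∀ l, x l = ζ ^ b.constr ℤ k l * p ^ b.constr ℤ v l *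
      q ^ b.constr ℤ w l) → ∀ j, ∑ i ∈ S.I with S.κ i = j, (z i : ℂ) * ζ ^ b.constr ℤ k (S.m i) *
        p ^ b.constr ℤ v (S.m i) * q ^ b.constr ℤ w (S.m i) = S.cs x j := fun x p q hx j =>
    sum_congr rfl fun i hi => by
      rw [hx, ← hz i (mem_filter.1 hi).1, mul_assoc, mul_assoc, ← mul_assoc (ζ ^ _)]
      rfl
  rcases h6 S.ι S.J S.I z (fun i => b.constr ℤ k (S.m i)) (fun i => b.constr ℤ v (S.m i))
    (fun i => b.constr ℤ w (S.m i)) S.κ ζ _ _ g (R * V + 1) b'.natAbs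
    ⌈10 * ((R * V + 1 : ℕ) : ℝ) * (R * (2 * T / (g * V)))⌉₊ H (w i₁ / v i₁)
    (R * (2 * T / (g * V))) a hg hζ (by omega) (fun i hi => ⟨by
      have := hR' i hi v V (fun k => by
        rw [← Int.cast_abs, ← Nat.cast_natAbs]
        exact_mod_cast hi₁ k (mem_univ k)) (by positivity)
      have h1 : |b.constr ℤ v (S.m i)| ≤ R * V := by exact_mod_cast this
      push_cast
      linarith only [h1], hR i hi w v _ _ (fun k => by
        have h1 : (v i₁ : ℝ) ≠ 0 := by exact_mod_cast hv0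
        have h2 : (w k : ℝ) - w i₁ / v i₁ * v k = (w k * v i₁ - w i₁ * v k : ℤ) / v i₁ := by
          push_cast
          field_simp
        rw [h2, abs_div, ← hVR, ← div_div]
        exact div_le_div_of_nonneg_right ((le_div_iff₀' (by positivity)).2 (hmin' k i₁))
          (by positivity)) (by positivity)⟩) hH hH1 (by positivity) (Nat.le_ceil _) hp hq
    ⟨j, _, _, zpow_ne_zero _ hξ0, zpow_ne_zero _ hξ0, by rw [hcs χ _ _ hχ2]; exact hj⟩
    (fun j => by rw [hcs _ _ _ hy]; exact hzero j) (fun h => by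
      rw [h, sub_self] at hqm
      refine hd1 (anomN_one hdn e2 (B := 2 * T ^ 2) (by linarith only [e1]) hs0 hsb (sub_eq_zero.1 ?_))
      refine (mul_eq_zero.1 hqm.symm).resolve_left fun h' => ?_
      rw [h', norm_zero] at hζn
      exact zero_ne_one hζn) with hbig | ⟨P, hP, hP0, hs⟩
  · exfalso
    rw [hqm, norm_mul, hζn, one_mul] at hbig
    have u1 := twoB_zpow hdn e2 _ hsb (by linarith only [e0, e1, ε0])
    have u2 : (g : ℝ) * ⌈10 * ((R * V + 1 : ℕ) : ℝ) * (R * (2 * T / (g * V)))⌉₊ ≤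
        (20 * (R + 1) * R + 1) * T := by
      have h1 := (Nat.ceil_lt_add_one (a := 10 * ((R * V + 1 : ℕ) : ℝ) * (R * (2 * T / (g * V))))
        (by positivity)).le
      refine (mul_le_mul_of_nonneg_left h1 (by positivity)).trans ?_
      have h2 : (g : ℝ) * (10 * ((R * V + 1 : ℕ) : ℝ) * (R * (2 * T / (g * V))) + 1) =
          20 * (R * (R * T)) + 20 * (R * T) / V + g := by
        push_cast
        field_simp
        ring
      have h3 : 20 * (R * T) / V ≤ 20 * (R * T) := div_le_self (by positivity) V1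
      rw [h2]
      linarith only [h3, hgT]
    have u3 : (g : ℝ) * ((5 * (R * V + 1) * b'.natAbs : ℕ) : ℝ) ≤ 5 * (R + 1) * T := by
      have h1 : (g : ℝ) * b'.natAbs ≤ T := (le_mul_of_one_le_right (by positivity) V1).trans hgV
      have h2 := mul_le_mul_of_nonneg_left hgV R0
      rw [Nat.cast_mul, Nat.cast_mul, Nat.cast_add, Nat.cast_mul]
      simp only [Nat.cast_ofNat, Nat.cast_one]
      linarith only [h1, h2]
    have u4 := mul_le_mul_of_nonneg_left u3 (Nat.cast_nonneg H)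
    have u5 := hbig.trans (mul_le_mul u1 ((anomN_pow (Nat.cast_nonneg H) _ _ g).trans
      (Real.exp_le_exp.2 (add_le_add u2 u4))) (by positivity) (by positivity))
    have u6 : 4 * ε * (2 * T ^ 2) < Real.exp (5 * T) * ε := by
      linarith only [mul_lt_mul_of_pos_right hsq ε0]
    have u7 := u5.trans_lt (mul_lt_mul_of_pos_right u6 (Real.exp_pos _))
    rw [hε, ← Real.exp_add, ← Real.exp_add, Real.one_lt_exp_iff] at u7
    linarith only [c3.2, u7, X0]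
  · refine (anomN_end h8 S hz hg hζ hχ2 hy hp hq ⟨b j₀, b i₀, ?_⟩ hP hP0 hs).imp_left ?_
    · simp only [Basis.constr_basis]
      intro h
      exact hm0 (by linear_combination h)
    rintro ⟨u, hu, hz0⟩
    refine ⟨u, hu, (anomN_rho _ hz0).trans (le_trans ?_ e3)⟩
    have hb : ∀ i ∈ S.I, ‖S.c i‖ * ‖χ (S.m i) - (χ * anomCh d hd
        (b.constr ℤ (s₁ • v + s₂ • w))) (S.m i)‖ ≤ |(z i : ℝ)| * (4 * ε * (R * T)) := by
      intro i hi
      have h1 : ‖χ (S.m i)‖ = 1 := by rw [hχ, norm_zpow, hξn, one_zpow]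
      have h2 := hR' i hi _ T (fun k => (b2 k).trans (div_le_self T0 g1')) T0
      have h3 : Real.exp (-X) ≤ 1 := Real.exp_le_one_iff.2 (neg_nonpos.2 X0)
      have h4 : R * T * ε ≤ H * (R * T * ε) := le_mul_of_one_le_left (by positivity) hH1
      have h5 : 0 ≤ R * T * ε := by positivity
      rw [hz i hi, Complex.norm_intCast, AddChar.mul_apply, anomCh_apply, ← mul_one_sub, norm_mul,
        h1, one_mul, norm_sub_rev]
      exact mul_le_mul_of_nonneg_left (twoB_zpow hdn e2 _ h2 (by linarith only [h3, h4, h5, e3])) (abs_nonneg _)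
    refine (sum_le_sum hb).trans ?_
    rw [← sum_mul]
    exact (mul_le_mul_of_nonneg_right hH (by positivity)).trans_eq (by ring)

theorem sAnomN (h1 : SPigN) (h2 : SRep2N) (h3 : SNearN) (h4 : STwoN) (h5 : SOneN) (h6 : SSylN)
    (h7 : SRepC) (h8 : SFF) : SAnomN := by
  intro Λ _ _ _ S hS
  choose! z hz using hS
  let b := Module.finBasis ℤ Λ
  obtain ⟨γ₀, N₀, g0, hN₀⟩ := h1 (finrank ℤ Λ)
  obtain ⟨K, hK⟩ := anomN_core h2 h3 h4 h6 h8 S hz b
  obtain ⟨R, hR⟩ := anomN_lin b S.I S.m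
  obtain ⟨M₁, hM₁⟩ := anomN_short h5 S hz (R + 1)
  have γ0 : 0 < min γ₀ (1 / 10) := lt_min g0 (by norm_num)
  have γ1 := min_le_left γ₀ (1 / 10)
  have γ2 := min_le_right γ₀ (1 / 10)
  refine ⟨min γ₀ (1 / 10) / 2, by linarith, fun δ δ0 δ1 => ?_⟩
  obtain ⟨M₂, hM₂⟩ := anom_large K (1 - min γ₀ (1 / 10)) (1 - δ) (by linarith)
  obtain ⟨M₃, hM₃⟩ := anom_large K (1 - δ) (1 - δ / 2) (by linarith)
  refine ⟨N₀ + M₁ + M₂ + M₃ + 1, fun χ hM h0 hρ => ?_⟩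
  obtain ⟨ξ, e, hξ, hχ, he⟩ := h7 Λ χ _ b (by omega)
  generalize orderOf χ = M at hM hρ hξ he ⊢
  have hM0 : 0 < M := by omega
  have hM1 : (1 : ℝ) ≤ M := by exact_mod_cast hM0
  rcases hN₀ M (by omega) _ he with ⟨κ, r, hr, hκ, hs⟩ | ⟨κ₁, κ₂, r₁, r₂, d1, d2, hmin, hs⟩
  · exfalso
    obtain ⟨h, v, hpos, hv, hprim⟩ := anomN_prim r hr
    obtain ⟨g, ω, X₀, k, hχ', hg, hω, hX, b1, b2⟩ := anomN_rep b hM0 hξ hχ he hpos hprim (κ := κ)
      (fun i => hv i ▸ hκ i) (T := (M : ℝ) ^ (1 / 15 : ℝ)) (fun i => hv i ▸ hs i)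
    have T0 : 0 ≤ (M : ℝ) ^ (1 / 15 : ℝ) := by positivity
    have R0 : 0 ≤ R * (M : ℝ) ^ (1 / 15 : ℝ) := by positivity
    have h9 := hM₁ M (by omega) χ k _ g ω X₀ hχ' hg hω hX (by push_cast; linarith)
      (fun i hi => by
        have := hR i hi v v 0 _ (by simpa using b2) (by positivity)
        rw [zero_mul, sub_zero, ← mul_div_assoc, le_div_iff₀' (by exact_mod_cast hg)] at this
        push_cast
        linarith) h0
    have h10 := Real.exp_lt_exp.1 (h9.trans_le hρ)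
    have h11 : (M : ℝ) ^ (97 / 100 : ℝ) ≤ (M : ℝ) ^ (1 - δ / 2) :=
      Real.rpow_le_rpow_of_exponent_le hM1 (by linarith)
    linarith
  · have hle : (M : ℝ) ^ (1 - γ₀) ≤ (M : ℝ) ^ (1 - min γ₀ (1 / 10)) :=
      Real.rpow_le_rpow_of_exponent_le hM1 (by linarith)
    refine hK χ ξ e M _ _ _ κ₁ κ₂ r₁ r₂ hM0 hξ hχ he d1 d2 hmin
      (fun i => ⟨(hs i).1.trans hle, (hs i).2.trans hle⟩) (Real.one_le_rpow hM1 (by linarith)) ?_
      (hM₂ M (by omega)) (hM₃ M (by omega)) h0 hρ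
    exact (Real.rpow_le_rpow_of_exponent_le hM1 (by linarith)).trans_eq (Real.rpow_one _)

end Pool.Agent.MP_c1891a_nt.G43
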