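import Pool.Agent.MP_c1891a_nt.G43.Bas
import Pool.Agent.MP_c1891a_nt.H73.Rep
import Pool.Agent.MP_c1891a_nt.H57.Anom
import Pool.Agent.MP_c1891a_nt.H58.TwoB

/-! Very small values: auxiliary lemmas. -/

namespace Pool.Agent.MP_c1891a_nt.G43

open Finset Module Polynomial H43

/-- the character `l ↦ x ^ u l`. -/
def anomCh {Λ F : Type} [AddCommGroup Λ] [Field F] (x : F) (hx : x ≠ 0) (u : Λ →ₗ[ℤ] ℤ) :
    AddChar Λ F where
  toFun l := x ^ u l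
  map_zero_eq_one' := by rw [map_zero, zpow_zero]
  map_add_eq_mul' a b := by rw [map_add, zpow_add₀ hx]

theorem anomCh_apply {Λ F : Type} [AddCommGroup Λ] [Field F] (x : F) (hx : x ≠ 0)
    (u : Λ →ₗ[ℤ] ℤ) (l : Λ) : anomCh x hx u l = x ^ u l := rfl

theorem anomN_eig {ι V : Type} [AddCommGroup V] [Module ℂ V] (E : Module.End ℂ V) (I : Finset ι)
    (τ : ι → V) (u : ι → ℤ) (h : ∀ i ∈ I, E (τ i) = (u i : ℂ) • τ i) (h0 : ∑ i ∈ I, τ i = 0)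
    (t : ℤ) : ∑ i ∈ I with u i = t, τ i = 0 := by
  classical
  by_cases ht : t ∈ I.image u
  · have hi := (E.eigenspaces_iSupIndep.comp (f := fun t : ℤ => (t : ℂ)) Int.cast_injective)
    refine (iSupIndep_iff_finsetSum_eq_zero_imp_eq_zero _).1 hi (I.image u)
      (fun t => ∑ i ∈ I with u i = t, τ i) (fun t _ => Submodule.sum_mem _ fun i hi => ?_) ?_ t ht
    · obtain ⟨i1, i2⟩ := mem_filter.1 hi
      exact Module.End.mem_eigenspace_iff.2 (by rw [h i i1, i2])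
    · rw [sum_fiberwise_of_maps_to fun i hi => mem_image_of_mem u hi, h0]
  · exact sum_eq_zero fun i hi =>
      absurd (mem_image.2 ⟨i, (mem_filter.1 hi).1, (mem_filter.1 hi).2⟩) ht

theorem anomN_pw {F : Type} [Field F] {x : F} (hx : x ≠ 0) {A : ℕ} {α : ℤ} (h : α.natAbs ≤ A) :
    x ^ (A + α).toNat = x ^ A * x ^ α := by
  rw [← zpow_natCast, Int.toNat_of_nonneg (by omega), zpow_add₀ hx, zpow_natCast]

theorem anomN_spec {ι : Type} (I : Finset ι) (c : ι → ℂ) (α β : ι → ℤ) {P t : FF} {p q : ℂ}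
    (hP : P ≠ 0) (ht : t ≠ 0) (hp : p ≠ 0) (hq : q ≠ 0)
    (hs : ∀ Φ : ℂ[X][X], (Φ.map (aeval t).toRingHom).eval P = 0 → Φ.evalEval q p = 0)
    (h : ∑ i ∈ I, algebraMap ℂ FF (c i) * P ^ α i * t ^ β i = 0) :
    ∑ i ∈ I, c i * p ^ α i * q ^ β i = 0 := by
  set A := ∑ i ∈ I, (α i).natAbs
  set B := ∑ i ∈ I, (β i).natAbs
  have hA : ∀ i ∈ I, (α i).natAbs ≤ A := fun i hi =>
    single_le_sum (f := fun i => (α i).natAbs) (fun _ _ => Nat.zero_le _) hi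
  have hB : ∀ i ∈ I, (β i).natAbs ≤ B := fun i hi =>
    single_le_sum (f := fun i => (β i).natAbs) (fun _ _ => Nat.zero_le _) hi
  have h1 := hs (∑ i ∈ I, C (C (c i) * X ^ (B + β i).toNat) * X ^ (A + α i).toNat) (by
    rw [Polynomial.map_sum, eval_finsetSum, ← mul_zero (P ^ A * t ^ B), ← h, mul_sum]
    refine sum_congr rfl fun i hi => ?_
    simp only [Polynomial.map_mul, map_C, Polynomial.map_pow, map_X, eval_mul, eval_C, eval_pow,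
      eval_X, AlgHom.toRingHom_eq_coe, RingHom.coe_coe, map_mul, map_pow, aeval_C, aeval_X]
    rw [anomN_pw hP (hA i hi), anomN_pw ht (hB i hi)]
    ring)
  rw [evalEval_finsetSum] at h1
  refine (mul_eq_zero.1 (?_ : p ^ A * q ^ B * _ = 0)).resolve_left
    (mul_ne_zero (pow_ne_zero _ hp) (pow_ne_zero _ hq))
  rw [← h1, mul_sum]
  refine sum_congr rfl fun i hi => ?_
  simp only [evalEval_mul, evalEval_C, evalEval_pow, evalEval_X, eval_mul, eval_C, eval_pow,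
    eval_X]
  rw [anomN_pw hp (hA i hi), anomN_pw hq (hB i hi)]
  ring

theorem anomN_tt (h8 : SFF) : tt ≠ 0 := fun h => h8.1 (h ▸ isAlgebraic_zero)

theorem anomN_coset (h8 : SFF) {ι : Type} (I : Finset ι) (c : ι → ℂ) (α β : ι → ℤ) {P : FF}
    {p q : ℂ} (hP : P ≠ 0) (hp : p ≠ 0) (hq : q ≠ 0)
    (hs : ∀ Φ : ℂ[X][X], (Φ.map (aeval tt).toRingHom).eval P = 0 → Φ.evalEval q p = 0)
    (h : ∑ i ∈ I, algebraMap ℂ FF (c i) * P ^ α i * tt ^ β i = 0) {a b : ℤ}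
    (hab : P ^ a * tt ^ b ∈ Set.range (algebraMap ℂ FF)) (t : ℤ) :
    ∑ i ∈ I with a * β i - b * α i = t, c i * p ^ α i * q ^ β i = 0 := by
  have ht := anomN_tt h8
  obtain ⟨D, hD, -⟩ := h8.2
  have key : ∀ x y : ℤ, tt * D (P ^ x * tt ^ y) = (x * (tt * D P / P) + y) * (P ^ x * tt ^ y) := by
    intro x y
    rw [D.leibniz, D.leibniz_zpow, D.leibniz_zpow, hD, zpow_sub_one₀ hP, zpow_sub_one₀ ht]
    simp only [smul_eq_mul, zsmul_eq_mul]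
    field_simp
    ring
  have h0 : (a : FF) * (tt * D P / P) + b = 0 := by
    obtain ⟨r, hr⟩ := hab
    have := key a b
    rw [← hr, D.map_algebraMap, mul_zero, hr] at this
    exact (mul_eq_zero.1 this.symm).resolve_right
      (mul_ne_zero (zpow_ne_zero _ hP) (zpow_ne_zero _ ht))
  refine anomN_spec _ c α β hP ht hp hq hs ?_
  refine anomN_eig (LinearMap.mulLeft ℂ ((a : FF) * tt) ∘ₗ D.toLinearMap) I
    (fun i => algebraMap ℂ FF (c i) * P ^ α i * tt ^ β i) (fun i => a * β i - b * α i)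
    (fun i _ => ?_) h t
  rw [mul_assoc, ← Algebra.smul_def, map_smul, smul_comm]
  congr 1
  change (a : FF) * tt * D (P ^ α i * tt ^ β i) = _
  rw [mul_assoc, key, Algebra.smul_def, map_intCast, ← mul_assoc]
  congr 1
  push_cast
  linear_combination (α i : FF) * h0

variable {Λ : Type} [AddCommGroup Λ]

theorem anomN_rho (S : Sys Λ) {χ y : AddChar Λ ℂ} (hy : S.Zero y) :
    S.ρ χ ≤ ∑ i ∈ S.I, ‖S.c i‖ * ‖χ (S.m i) - y (S.m i)‖ := by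
  classical
  unfold Sys.ρ
  rw [← sum_fiberwise_of_maps_to (g := S.κ) fun i hi => mem_image_of_mem S.κ hi]
  refine sum_le_sum fun j _ => ?_
  rw [← sub_zero (S.cs χ j), ← hy j]
  unfold Sys.cs
  rw [← sum_sub_distrib]
  refine (norm_sum_le _ _).trans (le_of_eq (sum_congr rfl fun i _ => ?_))
  rw [← mul_sub, norm_mul]
  rfl

theorem anomN_lin {n : ℕ} (b : Basis (Fin n) ℤ Λ) {ι : Type} (I : Finset ι) (m : ι → Λ) :
    ∃ R : ℕ, ∀ i ∈ I, ∀ (x y : Fin n → ℤ) (s B : ℝ), (∀ k, |x k - s * y k| ≤ B) → 0 ≤ B →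
      |b.constr ℤ x (m i) - s * b.constr ℤ y (m i)| ≤ R * B := by
  refine ⟨∑ i ∈ I, ∑ k, (b.equivFun (m i) k).natAbs, fun i hi x y s B h hB => ?_⟩
  have h1 : ∑ k, (b.equivFun (m i) k).natAbs ≤ ∑ i ∈ I, ∑ k, (b.equivFun (m i) k).natAbs :=
    single_le_sum (f := fun i => ∑ k, (b.equivFun (m i) k).natAbs) (fun _ _ => Nat.zero_le _) hi
  refine le_trans ?_ (mul_le_mul_of_nonneg_right (Nat.cast_le.2 h1) hB)
  rw [b.constr_apply_fintype ℤ, b.constr_apply_fintype ℤ]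
  push_cast
  rw [mul_sum, ← sum_sub_distrib, sum_mul]
  refine (abs_sum_le_sum_abs _ _).trans (sum_le_sum fun k _ => ?_)
  have e : ((b.equivFun (m i) k • x k : ℤ) : ℝ) - s * (b.equivFun (m i) k • y k : ℤ) =
      b.equivFun (m i) k * (x k - s * y k) := by
    simp only [smul_eq_mul]
    push_cast
    ring
  rw [e, abs_mul, Nat.cast_natAbs, Int.cast_abs]
  exact mul_le_mul_of_nonneg_left (h k) (abs_nonneg _)

open Classical in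
theorem anomN_fn (S : Sys Λ) {z : S.ι → ℤ} (hz : ∀ i ∈ S.I, S.c i = z i) {χ : AddChar Λ ℂ}
    {k v : Λ →ₗ[ℤ] ℤ} {ω X₀ : ℂ} (h : ∀ l, χ l = ω ^ k l * X₀ ^ v l) (j : S.J) :
    S.cs χ j = fn (S.I.filter fun i => S.κ i = j) z (fun i => k (S.m i)) (fun i => v (S.m i))
      ω X₀ :=
  sum_congr rfl fun i hi => by rw [h, hz i (mem_filter.1 hi).1, mul_assoc]; rfl

theorem anomN_bd {J : Type} (A : Finset J) (f : J → ℕ) : ∃ K : ℕ, 1 ≤ K ∧ ∀ j ∈ A, f j ≤ K :=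
  ⟨A.sup f + 1, by omega, fun j hj => (le_sup hj).trans (Nat.le_succ _)⟩

theorem anomN_ne (S : Sys Λ) {χ : AddChar Λ ℂ} (h : S.ρ χ ≠ 0) :
    ∃ j i, i ∈ S.I ∧ S.κ i = j ∧ S.cs χ j ≠ 0 := by
  classical
  by_contra hn
  refine h ((S.ρ_eq_zero χ).2 fun j => ?_)
  by_contra hj
  refine hj (S.cs_eq_zero χ fun hm => ?_)
  obtain ⟨i, hi, e⟩ := mem_image.1 hm
  exact hn ⟨j, i, hi, e, hj⟩

theorem anomN_short (h5 : SOneN) (S : Sys Λ) {z : S.ι → ℤ} (hz : ∀ i ∈ S.I, S.c i = z i)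
    (C₁ : ℕ) : ∃ M₀ : ℕ, ∀ M : ℕ, M₀ ≤ M → ∀ (χ : AddChar Λ ℂ) (k v : Λ →ₗ[ℤ] ℤ) (g : ℕ)
      (ω X₀ : ℂ), (∀ l, χ l = ω ^ k l * X₀ ^ v l) → 0 < g → IsPrimitiveRoot ω g → X₀ ^ M = 1 →
      (g : ℝ) ≤ C₁ * (M : ℝ) ^ (1 / 15 : ℝ) →
      (∀ i ∈ S.I, (g : ℝ) * (|v (S.m i)| + 1) ≤ C₁ * (M : ℝ) ^ (1 / 15 : ℝ)) → S.ρ χ ≠ 0 →
      Real.exp (-(M : ℝ) ^ (97 / 100 : ℝ)) < S.ρ χ := by
  classical
  choose f hf using fun j => h5 S.ι (S.I.filter fun i => S.κ i = j) z C₁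
  obtain ⟨K, -, hK⟩ := anomN_bd (S.I.image S.κ) f
  refine ⟨K, fun M hM χ k v g ω X₀ h hg hω hX b1 b2 h0 => ?_⟩
  obtain ⟨j, i, hi, e, hj⟩ := anomN_ne S h0
  refine lt_of_lt_of_le ?_ (S.norm_cs_le χ j)
  rw [anomN_fn S hz h] at hj ⊢
  exact hf j M ((hK j (mem_image.2 ⟨i, hi, e⟩)).trans hM) _ _ g ω X₀ hg hω hX b1
    (fun i hi => b2 i (mem_filter.1 hi).1) hj

theorem anomN_root (h3 : SNearN) (h4 : STwoN) (S : Sys Λ) {z : S.ι → ℤ}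
    (hz : ∀ i ∈ S.I, S.c i = z i) : ∃ K : ℕ, ∀ (χ : AddChar Λ ℂ) (k v : Λ →ₗ[ℤ] ℤ) (g : ℕ)
      (ω X₀ : ℂ) (U s Y : ℝ), (∀ l, χ l = ω ^ k l * X₀ ^ v l) → 0 < g → IsPrimitiveRoot ω g →
      ‖X₀‖ = 1 → (g : ℝ) ≤ U → (∀ i ∈ S.I, (g : ℝ) * (|v (S.m i)| + 1) ≤ U) →
      K * U ≤ s → K * s ≤ Y → S.ρ χ ≠ 0 → S.ρ χ ≤ Real.exp (-Y) →
      ∃ (d : ℂ) (hd : d ≠ 0), d ≠ 1 ∧ ‖d - 1‖ ≤ Real.exp (-s) ∧ S.Zero (χ * anomCh d hd v) := by
  classical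
  choose f hf using fun j => h3 S.ι (S.I.filter fun i => S.κ i = j) z
  choose f' hf' using fun j : S.J × S.J => h4 S.ι S.ι (S.I.filter fun i => S.κ i = j.1)
    (S.I.filter fun i => S.κ i = j.2) z z
  obtain ⟨K₁, k1, hK₁⟩ := anomN_bd (S.I.image S.κ) f
  obtain ⟨K₂, k2, hK₂⟩ := anomN_bd (S.I.image S.κ ×ˢ S.I.image S.κ) f'
  refine ⟨K₁ + K₂, fun χ k v g ω X₀ U s Y h hg hω hX b1 b2 c1 c2 h0 hρ => ?_⟩
  obtain ⟨j, i, hi, e, hj⟩ := anomN_ne S h0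
  have hjm := mem_image.2 ⟨i, hi, e⟩
  have U0 : 0 ≤ U := (Nat.cast_nonneg g).trans b1
  have k1' : (1 : ℝ) ≤ K₁ := by exact_mod_cast k1
  have k2' : (1 : ℝ) ≤ K₂ := by exact_mod_cast k2
  push_cast at c1 c2
  have Us : U ≤ s := by nlinarith
  have s0 : 0 ≤ s := U0.trans Us
  have sY : s ≤ Y := by nlinarith
  have hX0 : X₀ ≠ 0 := by
    rintro rfl
    simp at hX
  have small : ∀ j' (t : ℝ), t ≤ Y → ‖fn (S.I.filter fun i => S.κ i = j') z (fun i => k (S.m i))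
      (fun i => v (S.m i)) ω X₀‖ ≤ Real.exp (-t) := fun j' t ht => by
    rw [← anomN_fn S hz h]
    exact ((S.norm_cs_le χ j').trans hρ).trans (Real.exp_le_exp.2 (neg_le_neg ht))
  have hj' := hj
  rw [anomN_fn S hz h] at hj'
  obtain ⟨α, a0, a1, a2⟩ := hf j _ _ g ω X₀ s hg hω hX (b1.trans Us)
    (fun i hi => (b2 i (mem_filter.1 hi).1).trans Us) hj' (small j _ (by
      have : (f j : ℝ) ≤ K₁ := by exact_mod_cast hK₁ j hjm
      nlinarith))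
  have hd : α / X₀ ≠ 0 := div_ne_zero a0 hX0
  have hy : ∀ l, (χ * anomCh (α / X₀) hd v) l = ω ^ k l * α ^ v l := fun l => by
    rw [AddChar.mul_apply, anomCh_apply, h, mul_assoc, ← mul_zpow, mul_div_cancel₀ _ hX0]
  refine ⟨α / X₀, hd, fun h1 => hj' ?_, ?_, fun j' => ?_⟩
  · rwa [(div_eq_one_iff_eq hX0).1 h1] at a2
  · rwa [div_sub_one hX0, norm_div, hX, div_one]
  · by_cases hm : j' ∈ S.I.image S.κ
    · rw [anomN_fn S hz hy]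
      have : (f' (j, j') : ℝ) ≤ K₂ := by exact_mod_cast hK₂ (j, j') (mem_product.2 ⟨hjm, hm⟩)
      have h2 : f' (j, j') * U ≤ s := by nlinarith
      exact hf' (j, j') _ _ _ _ g ω X₀ α U hg hω hX b1 (fun i hi => b2 i (mem_filter.1 hi).1)
        (fun i hi => b2 i (mem_filter.1 hi).1) hj' a0 a2
        (a1.trans (Real.exp_le_exp.2 (neg_le_neg h2))) (small j' _ (h2.trans sY))
    · exact S.cs_eq_zero _ hm

theorem anomN_prim {n : ℕ} (r : Fin n → ℤ) (hr : r ≠ 0) :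
    ∃ (h : ℤ) (v : Fin n → ℤ), 0 < h ∧ (∀ i, r i = h * v i) ∧
      ∀ m : ℤ, (∀ i, m ∣ v i) → m ∣ 1 := by
  classical
  have hd : ∀ i, univ.gcd r ∣ r i := fun i => gcd_dvd (mem_univ i)
  have h0 : univ.gcd r ≠ 0 := fun h0 => hr (funext fun i => zero_dvd_iff.1 (h0 ▸ hd i))
  choose v hv using fun i => (abs_dvd _ _).2 (hd i)
  refine ⟨_, v, abs_pos.2 h0, hv, fun m hm => ?_⟩
  refine (mul_dvd_mul_iff_left (abs_pos.2 h0).ne').1 ?_
  rw [mul_one, dvd_abs]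
  exact dvd_gcd fun i _ => by rw [hv i]; exact mul_dvd_mul_left _ (hm i)

theorem anomN_rep {n M : ℕ} (b : Basis (Fin n) ℤ Λ) (hM : 0 < M) {χ : AddChar Λ ℂ} {ξ : ℂ}
    {e : Λ →ₗ[ℤ] ℤ} (hξ : IsPrimitiveRoot ξ M) (hχ : ∀ l, χ l = ξ ^ e l)
    (he : Gen M fun i => e (b i)) {h κ : ℤ} {v : Fin n → ℤ} (hpos : 0 < h)
    (hv : ∀ m : ℤ, (∀ i, m ∣ v i) → m ∣ 1) (hκ : ∀ i, (M : ℤ) ∣ h * v i - κ * e (b i)) {T : ℝ}
    (hT : ∀ i, |((h * v i : ℤ) : ℝ)| ≤ T) :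
    ∃ (g : ℕ) (ω X₀ : ℂ) (k : Λ →ₗ[ℤ] ℤ), (∀ l, χ l = ω ^ k l * X₀ ^ b.constr ℤ v l) ∧ 0 < g ∧
      IsPrimitiveRoot ω g ∧ X₀ ^ M = 1 ∧ (g : ℝ) ≤ T ∧ ∀ i, |(v i : ℝ)| ≤ T / g := by
  obtain ⟨g, β, k, hg, hgM, hgh, -, hek⟩ := sRep1 n M hM _ he v hv h κ hκ
  have hgh : (g : ℝ) ≤ h := by exact_mod_cast Int.le_of_dvd hpos hgh
  have hh : (0 : ℝ) < h := by exact_mod_cast hpos
  have g0 : (0 : ℝ) < g := by exact_mod_cast hg
  have h2 : ∀ i, (g : ℝ) * |(v i : ℝ)| ≤ T := fun i => by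
    have := hT i
    push_cast at this
    rw [abs_mul, abs_of_pos hh] at this
    exact (mul_le_mul_of_nonneg_right hgh (abs_nonneg _)).trans this
  refine ⟨g, ξ ^ (M / g), ξ ^ β, b.constr ℤ k, fun l => ?_, hg, anom_root hM hξ hgM,
    by rw [← pow_mul, mul_comm, pow_mul, hξ.pow_eq_one, one_pow], ?_,
    fun i => (le_div_iff₀' g0).2 (h2 i)⟩
  · have : e = (β : ℤ) • b.constr ℤ v + ((M / g : ℕ) : ℤ) • b.constr ℤ k :=
      b.ext fun i => by simpa using hek i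
    rw [hχ, this]
    exact anom_pow (hξ.ne_zero hM.ne') _ _ _ _
  · obtain ⟨i, hi⟩ : ∃ i, v i ≠ 0 := by
      by_contra! hc
      have := hv 2 fun i => by rw [hc i]; exact dvd_zero _
      omega
    have h3 : (1 : ℝ) ≤ |(v i : ℝ)| := by exact_mod_cast Int.one_le_abs hi
    nlinarith [h2 i]

end Pool.Agent.MP_c1891a_nt.G43
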